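import Mathlib

namespace Pool.Agent.H.MP_eb30e1_co

/-- `R ⊆ [n] × [n]` is an order relation: reflexive, antisymmetric, transitive. -/
def IsOrd {n : ℕ} (R : Set (Fin n × Fin n)) : Prop :=
  (∀ x, (x, x) ∈ R) ∧ (∀ x y, (x, y) ∈ R → (y, x) ∈ R → x = y) ∧
    (∀ x y z, (x, y) ∈ R → (y, z) ∈ R → (x, z) ∈ R)

/-- The fixed point property of `([n], R)`. -/
def FPP {n : ℕ} (R : Set (Fin n × Fin n)) : Prop :=
  ∀ f : Fin n → Fin n, (∀ x y, (x, y) ∈ R → (f x, f y) ∈ R) → ∃ x, f x = x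

/-- `c 0 ⊊ c 1 ⊊ ⋯ ⊊ c (n choose 2)` is a maximal chain of order relations on `[n]`: all members
are order relations, it starts at the diagonal, ends at a linear order, and each step adds exactly
one pair. -/
def IsMaxChain (n : ℕ) (c : ℕ → Set (Fin n × Fin n)) : Prop :=
  (∀ i, i ≤ n.choose 2 → IsOrd (c i)) ∧ c 0 = {p | p.1 = p.2} ∧
    (∀ x y, (x, y) ∈ c (n.choose 2) ∨ (y, x) ∈ c (n.choose 2)) ∧
    ∀ i, i < n.choose 2 → ∃ p, p ∉ c i ∧ c (i + 1) = insert p (c i)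

/-- The number of members of the chain having the fixed point property. -/
noncomputable def numFPP (n : ℕ) (c : ℕ → Set (Fin n × Fin n)) : ℕ :=
  {i | i ≤ n.choose 2 ∧ FPP (c i)}.ncard

end Pool.Agent.H.MP_eb30e1_co
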