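import Pool.Agent.H.MP_eb30e1_co.Defs

namespace Pool.Agent.H.MP_eb30e1_co
open Classical Finset

variable {n : ℕ}

lemma fix_up {R : Set (Fin n × Fin n)} (h : IsOrd R) (f : Fin n → Fin n)
    (hf : ∀ x y, (x, y) ∈ R → (f x, f y) ∈ R) (x : Fin n) (hx : (x, f x) ∈ R) :
    ∃ y, f y = y := by
  obtain ⟨y, hy, hmin⟩ := Finset.exists_min_image (univ.filter fun y => (y, f y) ∈ R)
    (fun y => #(univ.filter fun z => (y, z) ∈ R)) ⟨x, by simpa using hx⟩
  simp only [mem_filter, mem_univ, true_and] at hy hmin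
  have h1 := hmin (f y) (hf _ _ hy)
  have hsub : (univ.filter fun z => (f y, z) ∈ R) ⊆ (univ.filter fun z => (y, z) ∈ R) := by
    intro z hz
    simp only [mem_filter, mem_univ, true_and] at hz ⊢
    exact h.2.2 _ _ _ hy hz
  have heq := Finset.eq_of_subset_of_card_le hsub h1
  have : y ∈ (univ.filter fun z => (f y, z) ∈ R) := by
    rw [heq]; simpa using h.1 y
  simp only [mem_filter, mem_univ, true_and] at this
  exact ⟨y, h.2.1 _ _ this hy⟩

lemma fix_of_comp {R : Set (Fin n × Fin n)} (h : IsOrd R) (f : Fin n → Fin n)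
    (hf : ∀ x y, (x, y) ∈ R → (f x, f y) ∈ R) (x : Fin n)
    (hx : (x, f x) ∈ R ∨ (f x, x) ∈ R) : ∃ y, f y = y := by
  rcases hx with hx | hx
  · exact fix_up h f hf x hx
  · refine fix_up (R := {p | (p.2, p.1) ∈ R}) ⟨fun x => h.1 x, fun x y a b => h.2.1 _ _ b a,
      fun x y z a b => h.2.2 _ _ _ b a⟩ f (fun x y a => hf _ _ a) x hx

noncomputable def Inc (R : Set (Fin n × Fin n)) : Finset (Fin n × Fin n) :=
  univ.filter fun p => p ∉ R ∧ (p.2, p.1) ∉ R

lemma mem_Inc {R : Set (Fin n × Fin n)} {x y : Fin n} :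
    (x, y) ∈ Inc R ↔ (x, y) ∉ R ∧ (y, x) ∉ R := by simp [Inc]

lemma fpp_of_center {R : Set (Fin n × Fin n)} (h : IsOrd R) (x : Fin n)
    (hx : ∀ y, (x, y) ∉ Inc R) : FPP R := by
  intro f hf
  refine fix_of_comp h f hf x ?_
  have := hx (f x)
  rw [mem_Inc] at this
  tauto

lemma le_card_Inc {R : Set (Fin n × Fin n)} (σ : Fin n → Fin n) (hσ : ∀ x, (x, σ x) ∈ Inc R) :
    (univ.image fun x => (x, σ x)) ⊆ Inc R ∧ #(univ.image fun x => (x, σ x)) = n := by
  constructor
  · intro p hp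
    obtain ⟨x, -, rfl⟩ := mem_image.1 hp
    exact hσ x
  · rw [card_image_of_injective _ (fun a b h => (Prod.ext_iff.1 h).1)]
    simp

lemma fpp_of_small {R : Set (Fin n × Fin n)} (h : IsOrd R) (hc : #(Inc R) < n) : FPP R := by
  by_cases hx : ∃ x, ∀ y, (x, y) ∉ Inc R
  · obtain ⟨x, hx⟩ := hx
    exact fpp_of_center h x hx
  · push Not at hx
    choose σ hσ using hx
    obtain ⟨h1, h2⟩ := le_card_Inc σ hσ
    have := card_le_card h1
    omega

lemma fpp_or {T : Set (Fin n × Fin n)} {p : Fin n × Fin n} (hT : IsOrd T)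
    (hS : IsOrd (insert p T)) (hp : p ∉ T) (hc : #(Inc (insert p T)) ≤ n) :
    FPP (insert p T) ∨ FPP T := by
  by_cases hx : ∃ x, ∀ y, (x, y) ∉ Inc (insert p T)
  · obtain ⟨x, hx⟩ := hx
    exact Or.inl (fpp_of_center hS x hx)
  · push Not at hx
    choose σ hσ using hx
    obtain ⟨h1, h2⟩ := le_card_Inc σ hσ
    have heq := Finset.eq_of_subset_of_card_le h1 (by omega)
    have uniq : ∀ x y, (x, y) ∈ Inc (insert p T) → y = σ x := by
      intro x y hxy
      rw [← heq] at hxy
      obtain ⟨z, -, hz⟩ := mem_image.1 hxy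
      obtain ⟨e1, e2⟩ := Prod.ext_iff.1 hz
      simp only at e1 e2
      rw [← e2, e1]
    have symm : ∀ x y, (x, y) ∈ Inc (insert p T) → (y, x) ∈ Inc (insert p T) := by
      intro x y hxy
      rw [mem_Inc] at hxy ⊢
      tauto
    have inv : ∀ x, σ (σ x) = x := fun x => (uniq _ _ (symm _ _ (hσ x))).symm
    obtain ⟨a, b⟩ := p
    have hab : a ≠ b := fun e => hp (by rw [e]; exact hT.1 b)
    have hab' : (a, b) ∈ insert (a, b) T := Set.mem_insert _ _
    have n1 : σ a ≠ a := fun e => (mem_Inc.1 (hσ a)).1 (by rw [e]; exact hS.1 a)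
    have n2 : σ b ≠ b := fun e => (mem_Inc.1 (hσ b)).1 (by rw [e]; exact hS.1 b)
    have n3 : σ a ≠ b := fun e => (mem_Inc.1 (hσ a)).1 (by rw [e]; exact hab')
    have n4 : σ b ≠ a := fun e => (mem_Inc.1 (hσ b)).2 (by rw [e]; exact hab')
    right
    intro f hf
    by_contra hfix
    have key : ∀ x, x ≠ a → x ≠ b → f x = σ x := by
      intro x xa xb
      apply uniq
      rw [mem_Inc]
      have := fun h => hfix (fix_of_comp hT f hf x h)
      constructor
      · rintro (e | e)
        · exact xa (Prod.ext_iff.1 e).1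
        · exact this (Or.inl e)
      · rintro (e | e)
        · exact xb (Prod.ext_iff.1 e).2
        · exact this (Or.inr e)
    have fa : f (σ a) = a := by rw [key _ n1 n3, inv]
    have fb : f (σ b) = b := by rw [key _ n4 n2, inv]
    have hne : (σ a, σ b) ∉ Inc (insert (a, b) T) := by
      intro h
      have := uniq _ _ h
      rw [inv] at this
      exact n4 this
    rw [mem_Inc] at hne
    have hba : (b, a) ∉ T := fun h => hab (hS.2.1 _ _ hab' (Or.inr h))
    by_cases c1 : (σ a, σ b) ∈ insert (a, b) T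
    · rcases c1 with e | e
      · exact n1 (Prod.ext_iff.1 e).1
      · have := hf _ _ e
        rw [fa, fb] at this
        exact hp this
    · have c2 : (σ b, σ a) ∈ insert (a, b) T := by
        by_contra c2
        exact hne ⟨c1, c2⟩
      rcases c2 with e | e
      · exact n4 (Prod.ext_iff.1 e).1
      · have := hf _ _ e
        rw [fa, fb] at this
        exact hba this

lemma card_Inc_le {c : ℕ → Set (Fin n × Fin n)} (hc : IsMaxChain n c) (m : ℕ)
    (hm : m ≤ n.choose 2) : #(Inc (c (n.choose 2 - m))) ≤ 2 * m := by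
  induction m with
  | zero =>
    have : Inc (c (n.choose 2 - 0)) = ∅ := by
      ext ⟨x, y⟩
      have := hc.2.2.1 x y
      simp only [Nat.sub_zero, mem_Inc, notMem_empty, iff_false]
      tauto
    rw [this]; simp
  | succ m ih =>
    obtain ⟨p, -, hp⟩ := hc.2.2.2 (n.choose 2 - (m + 1)) (by omega)
    have e : n.choose 2 - (m + 1) + 1 = n.choose 2 - m := by omega
    rw [e] at hp
    have hsub : Inc (c (n.choose 2 - (m + 1))) ⊆
        insert p (insert (p.2, p.1) (Inc (c (n.choose 2 - m)))) := by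
      rintro ⟨x, y⟩ h
      rw [mem_insert, mem_insert, mem_Inc, hp]
      rw [mem_Inc] at h
      by_cases e1 : (x, y) = p
      · exact Or.inl e1
      by_cases e2 : (y, x) = p
      · exact Or.inr (Or.inl (by rw [← e2]))
      refine Or.inr (Or.inr ⟨?_, ?_⟩)
      · rintro (e | e)
        · exact e1 e
        · exact h.1 e
      · rintro (e | e)
        · exact e2 e
        · exact h.2 e
    have h1 := card_le_card hsub
    have h2 := card_insert_le p (insert (p.2, p.1) (Inc (c (n.choose 2 - m))))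
    have h3 := card_insert_le (p.2, p.1) (Inc (c (n.choose 2 - m)))
    have := ih (by omega)
    omega

lemma le_choose (hn : 3 ≤ n) : n ≤ n.choose 2 := by
  rw [Nat.choose_two_right, Nat.le_div_iff_mul_le (by norm_num)]
  exact Nat.mul_le_mul_left _ (by omega)

lemma fin_F (c : ℕ → Set (Fin n × Fin n)) : {i | i ≤ n.choose 2 ∧ FPP (c i)}.Finite :=
  (Set.finite_Iic (n.choose 2)).subset fun _ h => h.1

lemma card_le_num (c : ℕ → Set (Fin n × Fin n)) (s : Finset ℕ)
    (hs : ∀ i ∈ s, i ≤ n.choose 2 ∧ FPP (c i)) : #s ≤ numFPP n c := by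
  rw [numFPP, ← Set.ncard_coe_finset]
  exact Set.ncard_le_ncard (fun i hi => hs i (by simpa using hi)) (fin_F c)

lemma last_fpp {c : ℕ → Set (Fin n × Fin n)} (hc : IsMaxChain n c) (i : ℕ)
    (hi : i ≤ n.choose 2) (h : 2 * (n.choose 2 - i) < n) : FPP (c i) := by
  have h1 := card_Inc_le hc (n.choose 2 - i) (by omega)
  rw [show n.choose 2 - (n.choose 2 - i) = i by omega] at h1
  exact fpp_of_small (hc.1 i hi) (by omega)

lemma lower (hn : 3 ≤ n) {c : ℕ → Set (Fin n × Fin n)} (hc : IsMaxChain n c) :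
    n / 2 + 1 ≤ numFPP n c := by
  have hN := le_choose hn
  rcases Nat.even_or_odd' n with ⟨h, e | e⟩
  · have h1 := card_Inc_le hc h (by omega)
    obtain ⟨p, hp, hp'⟩ := hc.2.2.2 (n.choose 2 - h - 1) (by omega)
    rw [show n.choose 2 - h - 1 + 1 = n.choose 2 - h by omega] at hp'
    have o1 := hc.1 (n.choose 2 - h) (by omega)
    have o2 := hc.1 (n.choose 2 - h - 1) (by omega)
    have key := fpp_or o2 (hp' ▸ o1) hp (by rw [← hp']; omega)
    rw [← hp'] at key
    obtain ⟨j, hj, hj'⟩ : ∃ j, j ≤ n.choose 2 - h ∧ FPP (c j) := by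
      rcases key with k | k
      · exact ⟨_, le_rfl, k⟩
      · exact ⟨_, by omega, k⟩
    have := card_le_num c (insert j (Icc (n.choose 2 - h + 1) (n.choose 2))) (by
      intro i hi
      rcases mem_insert.1 hi with rfl | hi
      · exact ⟨by omega, hj'⟩
      · rw [mem_Icc] at hi
        exact ⟨hi.2, last_fpp hc i hi.2 (by omega)⟩)
    rw [card_insert_of_notMem (by rw [mem_Icc]; omega), Nat.card_Icc] at this
    omega
  · have := card_le_num c (Icc (n.choose 2 - h) (n.choose 2)) (by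
      intro i hi
      rw [mem_Icc] at hi
      exact ⟨hi.2, last_fpp hc i hi.2 (by omega)⟩)
    rw [Nat.card_Icc] at this
    omega

lemma next_step {A B : Set (Fin n × Fin n)} (hA : IsOrd A) (hB : IsOrd B) (hAB : A ⊆ B)
    (hne : A ≠ B) : ∃ p ∈ B, p ∉ A ∧ IsOrd (insert p A) := by
  obtain ⟨q, hq, hq'⟩ := Set.exists_of_ssubset (hAB.ssubset_of_ne hne)
  obtain ⟨⟨a, b⟩, hp, hmax⟩ := Finset.exists_max_image (univ.filter fun p => p ∈ B ∧ p ∉ A)
    (fun p => #(univ.filter fun z => (p.1, z) ∈ A) + #(univ.filter fun z => (z, p.2) ∈ A))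
    ⟨q, by simp [hq, hq']⟩
  simp only [mem_filter, mem_univ, true_and] at hp hmax
  have k1 : ∀ x, (x, a) ∈ A → x = a ∨ (x, b) ∈ A := by
    intro x hx
    by_contra hcon
    push Not at hcon
    have := hmax (x, b) ⟨hB.2.2 _ _ _ (hAB hx) hp.1, hcon.2⟩
    have lt : #(univ.filter fun z => (a, z) ∈ A) < #(univ.filter fun z => (x, z) ∈ A) := by
      apply card_lt_card
      refine ⟨fun z hz => ?_, fun hs => ?_⟩
      · simp only [mem_filter, mem_univ, true_and] at hz ⊢
        exact hA.2.2 _ _ _ hx hz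
      · have := hs (show x ∈ _ by simpa using hA.1 x)
        simp only [mem_filter, mem_univ, true_and] at this
        exact hcon.1 (hA.2.1 _ _ hx this)
    simp only at this
    omega
  have k2 : ∀ y, (b, y) ∈ A → y = b ∨ (a, y) ∈ A := by
    intro y hy
    by_contra hcon
    push Not at hcon
    have := hmax (a, y) ⟨hB.2.2 _ _ _ hp.1 (hAB hy), hcon.2⟩
    have lt : #(univ.filter fun z => (z, b) ∈ A) < #(univ.filter fun z => (z, y) ∈ A) := by
      apply card_lt_card
      refine ⟨fun z hz => ?_, fun hs => ?_⟩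
      · simp only [mem_filter, mem_univ, true_and] at hz ⊢
        exact hA.2.2 _ _ _ hz hy
      · have := hs (show y ∈ _ by simpa using hA.1 y)
        simp only [mem_filter, mem_univ, true_and] at this
        exact hcon.1 (hA.2.1 _ _ this hy)
    simp only at this
    omega
  have hs : insert (a, b) A ⊆ B := Set.insert_subset hp.1 hAB
  refine ⟨(a, b), hp.1, hp.2, fun x => Or.inr (hA.1 x), fun x y h1 h2 => hB.2.1 _ _ (hs h1) (hs h2),
    ?_⟩
  rintro x y z (e1 | e1) (e2 | e2)
  · obtain ⟨rfl, -⟩ := Prod.mk.inj e1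
    obtain ⟨-, rfl⟩ := Prod.mk.inj e2
    exact Or.inl rfl
  · obtain ⟨rfl, rfl⟩ := Prod.mk.inj e1
    rcases k2 z e2 with rfl | h
    · exact Or.inl rfl
    · exact Or.inr h
  · obtain ⟨rfl, rfl⟩ := Prod.mk.inj e2
    rcases k1 x e1 with rfl | h
    · exact Or.inl rfl
    · exact Or.inr h
  · exact Or.inr (hA.2.2 _ _ _ e1 e2)

/-- milestones -/
def ms (n k : ℕ) : ℕ → Set (Fin n × Fin n)
  | 0 => {p | p.1 = p.2}
  | 1 => {p | p.1 = p.2 ∨ (min (p.1.val / 2) k < min (p.2.val / 2) k ∧ p.2.val + 1 ≠ n)}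
  | 2 => {p | p.1 = p.2 ∨ min (p.1.val / 2) k < min (p.2.val / 2) k}
  | 3 => {p | p.1 = p.2 ∨ min (p.1.val / 2) k < min (p.2.val / 2) k ∨
      (p.1.val < p.2.val ∧ 2 * k ≤ p.1.val ∧ p.2.val + 1 ≠ n)}
  | _ + 4 => {p | p.1.val ≤ p.2.val}

lemma ms_ord (k j : ℕ) : IsOrd (ms n k j) := by
  rcases j with _ | _ | _ | _ | j <;>
  refine ⟨fun x => ?_, fun x y => ?_, fun x y z => ?_⟩ <;>
  simp only [ms, Set.mem_setOf_eq, Fin.ext_iff] <;> (try simp) <;> omega

lemma ms_mono (k j : ℕ) : ms n k j ⊆ ms n k (j + 1) := by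
  rintro ⟨x, y⟩
  rcases j with _ | _ | _ | _ | j <;>
  simp only [ms, Set.mem_setOf_eq, Fin.ext_iff] <;> omega

lemma ms_le (k j : ℕ) : ms n k j ⊆ ms n k 4 := by
  rintro ⟨x, y⟩
  rcases j with _ | _ | _ | _ | j <;>
  simp only [ms, Set.mem_setOf_eq, Fin.ext_iff] <;> omega

lemma not_fpp {A T B : Set (Fin n × Fin n)} (h1 : A ⊆ T) (h2 : T ⊆ B) (g : ℕ → ℕ)
    (hg : ∀ x, x < n → g x < n) (hne : ∀ x, x < n → g x ≠ x)
    (hm : ∀ x y : Fin n, (x, y) ∈ B → ((⟨g x, hg x x.2⟩ : Fin n), (⟨g y, hg y y.2⟩ : Fin n)) ∈ A) :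
    ¬ FPP T := by
  intro h
  obtain ⟨x, hx⟩ := h (fun x => ⟨g x, hg x x.2⟩) (fun x y hxy => h1 (hm x y (h2 hxy)))
  exact hne x x.2 (congrArg Fin.val hx)

lemma not_fpp_ms (k : ℕ) (hk : 2 * k + 3 ≤ n) (j : ℕ) (hj : j < 3) {T : Set (Fin n × Fin n)}
    (h1 : ms n k j ⊆ T) (h2 : T ⊆ ms n k (j + 1)) : ¬ FPP T := by
  interval_cases j
  · refine not_fpp h1 h2 (fun x => if x + 1 = n then 0 else n - 1) ?_ ?_ ?_
    · intro x hx; split_ifs <;> omega
    · intro x hx; split_ifs <;> omega
    · intro x y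
      have := x.2
      have := y.2
      simp only [ms, Set.mem_setOf_eq, Fin.ext_iff]
      split_ifs <;> omega
  · refine not_fpp h1 h2 (fun x => if x < 2 * k then (if x % 2 = 0 then x + 1 else x - 1)
      else if x = 2 * k then x + 1 else 2 * k) ?_ ?_ ?_
    · intro x hx; split_ifs <;> omega
    · intro x hx; split_ifs <;> omega
    · intro x y
      have := x.2
      have := y.2
      simp only [ms, Set.mem_setOf_eq, Fin.ext_iff]
      split_ifs <;> omega
  · refine not_fpp h1 h2 (fun x => if x < 2 * k then (if x % 2 = 0 then x + 1 else x - 1)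
      else if x + 1 = n then 2 * k else n - 1) ?_ ?_ ?_
    · intro x hx; split_ifs <;> omega
    · intro x hx; split_ifs <;> omega
    · intro x y
      have := x.2
      have := y.2
      simp only [ms, Set.mem_setOf_eq, Fin.ext_iff]
      split_ifs <;> omega

def Good (k : ℕ) (T : Set (Fin n × Fin n)) : Prop :=
  IsOrd T ∧ ∃ j, j < 4 ∧ ms n k j ⊆ T ∧ T ⊆ ms n k (j + 1)

lemma good_next (k : ℕ) (T : Set (Fin n × Fin n)) (h : Good k T) (hne : T ≠ ms n k 4) :
    ∃ p, p ∉ T ∧ Good k (insert p T) := by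
  obtain ⟨hT, j, hj, h1, h2⟩ := h
  induction' hd : 4 - j with d ih generalizing j
  · omega
  · by_cases e : T = ms n k (j + 1)
    · have : j + 1 ≠ 4 := fun h => hne (by rw [e, h])
      exact ih (j + 1) (by omega) (e ▸ le_rfl) (e ▸ ms_mono k (j + 1)) (by omega)
    · obtain ⟨p, hp, hp', ho⟩ := next_step hT (ms_ord k (j + 1)) h2 e
      exact ⟨p, hp', ho, j, hj, h1.trans (Set.subset_insert _ _), Set.insert_subset hp h2⟩

lemma good_le {k : ℕ} {T : Set (Fin n × Fin n)} (h : Good k T) : T ⊆ ms n k 4 := by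
  obtain ⟨-, j, -, -, h2⟩ := h
  exact h2.trans (ms_le k _)

lemma card_top (k : ℕ) : (ms n k 4 \ ms n k 0).ncard = n.choose 2 := by
  have := Finset.card_product_filter_lt (s := (univ : Finset (Fin n)))
  rw [card_univ, Fintype.card_fin] at this
  rw [← this, ← Set.ncard_coe_finset]
  congr 1
  ext ⟨x, y⟩
  simp only [ms, Set.mem_diff, Set.mem_setOf_eq, Fin.ext_iff, coe_filter, mem_product, mem_univ,
    true_and, Fin.lt_def]
  omega

lemma card_rest (k : ℕ) (hk : 2 * k + 3 ≤ n) : (ms n k 4 \ ms n k 3).ncard ≤ n - 1 - k := by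
  have := Set.ncard_le_ncard_of_injOn (s := ms n k 4 \ ms n k 3) (t := (range (n - 1 - k) : Finset ℕ))
    (fun p => if p.1.val < 2 * k then p.1.val / 2 else p.1.val - k) ?_ ?_
  · simpa using this
  · rintro ⟨x, y⟩
    have := x.2
    have := y.2
    simp only [ms, Set.mem_diff, Set.mem_setOf_eq, Fin.ext_iff, coe_range, Set.mem_Iio]
    split_ifs <;> omega
  · rintro ⟨x, y⟩ h1 ⟨u, v⟩ h2
    have := x.2
    have := y.2
    have := u.2
    have := v.2
    simp only [ms, Set.mem_diff, Set.mem_setOf_eq, Fin.ext_iff, Prod.ext_iff] at h1 h2 ⊢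
    split_ifs <;> omega

lemma upper (k : ℕ) (hk : 2 * k + 3 ≤ n) :
    ∃ c, IsMaxChain n c ∧ numFPP n c ≤ n - 1 - k := by
  have hnext := good_next (n := n) k
  haveI : Nonempty (Fin n) := ⟨⟨0, by omega⟩⟩
  choose! nx hnx using hnext
  let c : ℕ → Set (Fin n × Fin n) := fun i => (fun T => insert (nx T) T)^[i] (ms n k 0)
  have hc : ∀ i, c (i + 1) = insert (nx (c i)) (c i) := fun i => Function.iterate_succ_apply' _ _ _
  have inv : ∀ i, i ≤ n.choose 2 →
      Good k (c i) ∧ (ms n k 4 \ c i).ncard = n.choose 2 - i := by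
    intro i
    induction i with
    | zero => exact fun _ => ⟨⟨ms_ord k 0, 0, by omega, le_rfl, ms_mono k 0⟩, card_top k⟩
    | succ i ih =>
      intro hi
      obtain ⟨g, e⟩ := ih (by omega)
      have hne : c i ≠ ms n k 4 := by
        intro h
        rw [h] at e
        simp at e
        omega
      obtain ⟨h1, h2⟩ := hnx _ g hne
      rw [hc]
      refine ⟨h2, ?_⟩
      have h3 : nx (c i) ∈ ms n k 4 \ c i := ⟨good_le h2 (Set.mem_insert _ _), h1⟩
      have h4 : ms n k 4 \ insert (nx (c i)) (c i) = (ms n k 4 \ c i) \ {nx (c i)} := by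
        ext p; simp only [Set.mem_diff, Set.mem_insert_iff, Set.mem_singleton_iff]; tauto
      rw [h4, Set.ncard_diff_singleton_of_mem h3, e]
      omega
  refine ⟨c, ⟨fun i hi => (inv i hi).1.1, rfl, ?_, ?_⟩, ?_⟩
  · obtain ⟨g, e⟩ := inv _ le_rfl
    rw [Nat.sub_self, Set.ncard_eq_zero, Set.diff_eq_empty] at e
    intro x y
    rcases le_total x.val y.val with h | h
    · exact Or.inl (e h)
    · exact Or.inr (e h)
  · intro i hi
    obtain ⟨g, e⟩ := inv i hi.le
    have hne : c i ≠ ms n k 4 := by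
      intro h
      rw [h] at e
      simp at e
      omega
    exact ⟨_, (hnx _ g hne).1, hc i⟩
  · have hr := card_rest k hk
    have := Set.ncard_le_ncard_of_injOn (s := {i | i ≤ n.choose 2 ∧ FPP (c i)})
      (t := (range (n - 1 - k) : Finset ℕ)) (fun i => n.choose 2 - i) ?_ ?_
    · simpa [numFPP] using this
    · rintro i ⟨hi, hf⟩
      obtain ⟨⟨ho, j, hj, h1, h2⟩, e⟩ := inv i hi
      have j3 : j = 3 := by
        by_contra h
        exact not_fpp_ms k hk j (by omega) h1 h2 hf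
      subst j3
      have hne : ms n k 3 ≠ c i := fun h =>
        not_fpp_ms k hk 2 (by omega) (h ▸ ms_mono k 2) (h ▸ le_rfl) hf
      have : (ms n k 4 \ c i).ncard < (ms n k 4 \ ms n k 3).ncard := by
        apply Set.ncard_lt_ncard _ (Set.toFinite _)
        obtain ⟨q, hq, hq'⟩ := Set.exists_of_ssubset (h1.ssubset_of_ne hne)
        refine ⟨Set.diff_subset_diff_right h1, fun hs => ?_⟩
        exact (hs ⟨h2 hq, hq'⟩).2 hq
      simp only [coe_range, Set.mem_Iio]
      omega
    · rintro i ⟨hi, -⟩ j ⟨hj, -⟩ h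
      simp only at h
      omega

theorem main (hn : 3 ≤ n) :
    IsLeast {m | ∃ c, IsMaxChain n c ∧ numFPP n c = m} (n / 2 + 1) := by
  refine ⟨?_, ?_⟩
  · obtain ⟨c, hc, h⟩ := upper (n := n) ((n - 3) / 2) (by omega)
    exact ⟨c, hc, le_antisymm (by omega) (lower hn hc)⟩
  · rintro m ⟨c, hc, rfl⟩
    exact lower hn hc

lemma lower1 (hn : 1 ≤ n) {c : ℕ → Set (Fin n × Fin n)} (hc : IsMaxChain n c) :
    1 ≤ numFPP n c := by
  have := card_le_num c {n.choose 2} (by
    intro i hi
    rw [mem_singleton] at hi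
    exact ⟨hi.le, last_fpp hc i hi.le (by omega)⟩)
  simpa using this

theorem small (hn : n = 1 ∨ n = 2) :
    IsLeast {m | ∃ c, IsMaxChain n c ∧ numFPP n c = m} 1 := by
  refine ⟨?_, ?_⟩
  · have hc : IsMaxChain n (fun i => if i = 0 then ms n 0 0 else ms n 0 4) := by
      refine ⟨fun i _ => ?_, rfl, ?_, ?_⟩
      · dsimp only
        split_ifs <;> exact ms_ord _ _
      · rcases hn with rfl | rfl
        · intro x y; left; simp [ms, Subsingleton.elim x y]
        · intro x y; simp [ms]; omega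
      · rcases hn with rfl | rfl
        · intro i hi; simp at hi
        · intro i hi
          obtain rfl : i = 0 := by simpa using hi
          refine ⟨(0, 1), by simp [ms], ?_⟩
          ext ⟨x, y⟩
          fin_cases x <;> fin_cases y <;> simp [ms]
    refine ⟨_, hc, le_antisymm ?_ (lower1 (by omega) hc)⟩
    rw [numFPP, Set.ncard_le_one (fin_F _)]
    have key : ∀ i, (i ≤ n.choose 2 ∧ FPP (if i = 0 then ms n 0 0 else ms n 0 4)) →
        i = n.choose 2 := by
      rintro i ⟨h1, h2⟩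
      rcases hn with rfl | rfl
      · simpa using h1
      · by_contra h
        obtain rfl : i = 0 := by
          simp at h1 h; omega
        rw [if_pos rfl] at h2
        obtain ⟨x, hx⟩ := h2 (fun x => x + 1) (by
          intro x y h
          simp only [ms, Set.mem_setOf_eq] at h ⊢
          rw [h])
        simp at hx
    intro a ha b hb
    rw [key a ha, key b hb]
  · rintro m ⟨c, hc, rfl⟩
    exact lower1 (by omega) hc

end Pool.Agent.H.MP_eb30e1_co
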